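import Pool.Agent.Run7.h165.Final2

/-!
The two thresholds of the Ashkin–Teller random-cluster model coincide in high dimension when
`J₂ / J₁` is close to `1`.
-/

open MeasureTheory Filter Topology Run7.h165

/-- There is `d₀ ≥ 2` such that for every dimension `d ≥ d₀` and all `0 < J₁ < J₂ ≤ 1.006 J₁` the
thresholds `β₁` (clusters of type 1/2) and `β₂` (clusters of type 2) are equal: the weak limits of
the box measures exist for every `β > 0`, and there is a common threshold `0 < βc < ∞` such that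
below `βc` there is almost surely no infinite cluster of type 1/2, while above `βc` there is almost
surely an infinite cluster of type 2. -/
theorem Pool.Agent.Results.MP_2023fc_mp.ThresholdsCoincide.result :
    ∃ d₀ : ℕ, 2 ≤ d₀ ∧ ∀ d : ℕ, d₀ ≤ d → ∀ J₁ J₂ : ℝ, 0 < J₁ → J₁ < J₂ →
      J₂ ≤ 503 / 500 * J₁ →
      (∀ β : ℝ, 0 < β → ∃ μ : Measure (Config d), IsWeakLimit d β J₁ J₂ μ) ∧
      ∃ βc : ℝ, 0 < βc ∧ betaThreshold d J₁ J₂ 1 = βc ∧ betaThreshold d J₁ J₂ 2 = βc ∧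
        (∀ β : ℝ, 0 < β → β < βc → ∀ μ : Measure (Config d), IsWeakLimit d β J₁ J₂ μ →
          ∀ᵐ ω ∂μ, ¬ HasInfCluster 1 ω) ∧
        (∀ β : ℝ, βc < β → ∀ μ : Measure (Config d), IsWeakLimit d β J₁ J₂ μ →
          ∀ᵐ ω ∂μ, HasInfCluster 2 ω) := by
  obtain ⟨d₀, h⟩ := exists_Dok
  refine ⟨max d₀ 2, le_max_right _ _, fun d hd J₁ J₂ h1 h2 h3 => ?_⟩
  have hD : Dok d := h d ((le_max_left _ _).trans hd)
  haveI : NeZero d := ⟨by have := hD.1; omega⟩
  refine ⟨fun β hβ => Run7.h643.AT.iv_exists d hβ h1 h2, ?_⟩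
  obtain ⟨βc, c0, c1, c2, c3, c4⟩ := main hD h1 h2 h3
  refine ⟨βc, c0, c1, c2, fun β hβ hβc μ hμ => ?_, fun β hβc μ hμ => ?_⟩
  · exact zero_one_ae hβ h1 h2 1 (c4 β hβ hβc).1 μ hμ
  · exact (c3 β hβc).2.2 μ hμ
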